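import Pool.Agent.P.MP_4ef411_nt.Sm.Sys
import Pool.Agent.P.MP_746f10_nt.LP.All

namespace Pool.Agent.Old.MP_4ef411_nt.SplitDickman

open Pool.Agent.P.MP_4ef411_nt.Sm

/-- At almost all scales N, the smooth values of polynomials with rational roots and no common
root obey the product of Dickman laws, one factor for each distinct root. -/
theorem result : ∃ ρ : ℝ → ℝ, Dickman ρ ∧
    ∀ (r : ℕ) (P : Fin r → Polynomial ℤ) (u : Fin r → ℝ), 0 < r →
      (∀ i, 0 < (P i).natDegree) → (∀ i, ((P i).map (algebraMap ℤ ℚ)).Splits) →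
      (∀ i j, i ≠ j → Disjoint ((P i).rootSet ℚ) ((P j).rootSet ℚ)) → (∀ i, 0 < u i) →
      Asymptotics.IsLittleO Filter.atTop
        (fun X : ℕ => ∑ N ∈ Finset.Icc 1 X, (1 / (N : ℝ)) *
          |(PsiS P N (fun i => (N : ℝ) ^ (1 / u i)) : ℝ) / N -
            ∏ i, ρ (u i) ^ ((P i).rootSet ℚ).ncard|)
        (fun X : ℕ => Real.log X) := by
  classical
  obtain ⟨ρ, hρ⟩ := exists_dickman
  refine ⟨ρ, hρ, fun r P u hr hP hs hd hu => ?_⟩
  have e : ∀ i, (P i).rootSet ℚ = ((P i).map (Int.castRingHom ℚ)).roots.toFinset := fun i =>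
    Polynomial.rootSet_def _ _
  simp only [e, Set.ncard_coe_finset] at hd ⊢
  exact littleO (sys_eps (blk (ind Pool.Agent.P.MP_746f10_nt.LP.g_all)) hρ hr hP hs
    (fun i j hij q hq hq' => Set.disjoint_left.mp (hd i j hij)
      (Finset.mem_coe.mpr (Multiset.mem_toFinset.mpr hq))
      (Finset.mem_coe.mpr (Multiset.mem_toFinset.mpr hq'))) hu)

end Pool.Agent.Old.MP_4ef411_nt.SplitDickman
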